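import Pool.Agent.Results.MP_cbfbdc_gt.ProfileFailsHighDim

/-!
# The isoperimetric profile of the square flat torus lies below all model curves on a whole interval

For every `d ≥ 10` there are a window of volumes `[ω_d / 2 ^ d, β₂]`, `ω_d / 2 ^ d < β₂ ≤ 1 / 2`,
and a factor `c < 1`, such that for EVERY volume `β` in the window some connected domain of volume
`β` has boundary volume at most `c` times every applicable `φ_k(β)`; so `h(β)` is smaller than
`min_k φ_k(β)` by the factor `c` on the whole window. (The earlier result of the folder treats the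
single volume `ω_d / 2 ^ d`.) For `β > ω_d / 2 ^ d` no ball of volume `β` embeds in the torus; the
domains are ellipsoids whose shortest axis is the long diagonal of the cube, the volumes of which
exceed that of the largest embedded ball.
-/

set_option autoImplicit false

open Set Metric MeasureTheory Module Filter
open scoped Pointwise ENNReal NNReal RealInnerProductSpace Topology

namespace Pool.Agent.Results.MP_cbfbdc_gt.IntervalOfVolumes

open Pool.Agent.W533.Iso Pool.Agent.Results.MP_cbfbdc_gt.ProfileFailsHighDim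

noncomputable section

variable {d : ℕ}

/-- The ellipsoid of radius `ρ` in the norm `‖Bmap ·‖`. -/
def ellr (d : ℕ) (α ρ : ℝ) : Set (EuclideanSpace ℝ (Fin d)) := {x | ‖Bmap d α x‖ ≤ ρ}

lemma ellr_eq_image (hd : 0 < d) {α : ℝ} (hα : α ≠ 0) (ρ : ℝ) :
    ellr d α ρ = Amap d α '' closedBall 0 ρ := by
  ext x
  constructor
  · intro hx
    exact ⟨Bmap d α x, mem_closedBall_zero_iff.2 hx, Amap_Bmap hd hα x⟩
  · rintro ⟨y, hy, rfl⟩
    change ‖Bmap d α (Amap d α y)‖ ≤ ρ
    rw [Bmap_Amap hd hα]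
    simpa using hy

lemma isCompact_ellr (hd : 0 < d) {α : ℝ} (hα : α ≠ 0) (ρ : ℝ) : IsCompact (ellr d α ρ) := by
  rw [ellr_eq_image hd hα]
  exact (isCompact_closedBall _ _).image (LinearMap.continuous_of_finiteDimensional _)

lemma isConnected_ellr (hd : 0 < d) {α : ℝ} (hα : α ≠ 0) {ρ : ℝ} (hρ : 0 < ρ) :
    IsConnected (ellr d α ρ) := by
  rw [ellr_eq_image hd hα]
  refine IsConnected.image ⟨⟨0, by simp [hρ.le]⟩, ?_⟩ _
    (LinearMap.continuous_of_finiteDimensional _).continuousOn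
  exact (convex_closedBall _ _).isPreconnected

lemma volume_ellr (hd : 0 < d) {α : ℝ} (hα : 0 < α) {ρ : ℝ} (hρ : 0 < ρ) :
    volume (ellr d α ρ) = ENNReal.ofReal (ρ ^ d * omega d) := by
  rw [ellr_eq_image hd hα.ne', Measure.addHaar_image_linearMap, det_Amap hd hα, abs_one,
    ENNReal.ofReal_one, one_mul, Measure.addHaar_closedBall _ _ hρ.le,
    finrank_euclideanSpace_fin, ← ofReal_omega d hd.ne', ← ENNReal.ofReal_mul (by positivity)]

lemma far_of_ne' {α η ρ : ℝ} (hη : ∀ z : Fin d → ℤ, z ≠ 0 → 1 + η ≤ ‖Bmap d α (lat z)‖)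
    {x y : EuclideanSpace ℝ (Fin d)} (hy : y ∈ ellr d α ρ) {z : Fin d → ℤ} (hz : z ≠ 0)
    (hxy : x - y = lat z) : 1 + η - ρ ≤ ‖Bmap d α x‖ := by
  have h1 := hη z hz
  have h2 : ‖Bmap d α y‖ ≤ ρ := hy
  have h3 : ‖Bmap d α (lat z)‖ ≤ ‖Bmap d α x‖ + ‖Bmap d α y‖ := by
    rw [← hxy, map_sub]
    exact norm_sub_le _ _
  linarith

lemma injOn_ellr {α η ρ : ℝ} (hρη : 2 * ρ < 1 + η)
    (hη : ∀ z : Fin d → ℤ, z ≠ 0 → 1 + η ≤ ‖Bmap d α (lat z)‖) :
    InjOn (proj (d := d)) (ellr d α ρ) := by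
  intro x hx y hy hxy
  obtain ⟨z, hz⟩ := (proj_eq_iff x y).1 hxy
  by_cases h0 : z = 0
  · have h1 : lat (0 : Fin d → ℤ) = 0 := by
      ext i
      simp [lat_apply]
    rw [h0, h1, sub_eq_zero] at hz
    exact hz
  · have h1 := far_of_ne' hη hy h0 hz
    have h2 : ‖Bmap d α x‖ ≤ ρ := hx
    linarith

lemma not_mem_frontier_of_lt' {α ρ : ℝ} {x : EuclideanSpace ℝ (Fin d)}
    (hx : ‖Bmap d α x‖ < ρ) :
    (proj x : Torus d) ∉ frontier (proj '' ellr d α ρ) := by
  intro h
  have hopen : IsOpen {y : EuclideanSpace ℝ (Fin d) | ‖Bmap d α y‖ < ρ} :=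
    isOpen_lt (continuous_Bmap d α).norm continuous_const
  have h1 : (proj x : Torus d) ∈ interior (proj '' ellr d α ρ) := by
    refine mem_interior.2 ⟨proj '' {y | ‖Bmap d α y‖ < ρ}, ?_, isOpenMap_proj _ hopen,
      ⟨x, hx, rfl⟩⟩
    refine image_mono fun y hy => ?_
    exact (show ‖Bmap d α y‖ < ρ from hy).le
  exact h.2 h1

lemma isTorusDomain_ellr (hd : 0 < d) {α η ρ : ℝ} (hα : α ≠ 0) (hρ : 0 < ρ)
    (hρη : 2 * ρ < 1 + η)
    (hη : ∀ z : Fin d → ℤ, z ≠ 0 → 1 + η ≤ ‖Bmap d α (lat z)‖) :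
    IsTorusDomain (proj '' ellr d α ρ : Set (Torus d)) := by
  have hcomp : IsCompact (proj '' ellr d α ρ : Set (Torus d)) :=
    (isCompact_ellr hd hα ρ).image continuous_proj
  refine ⟨hcomp, fun p hp => ?_⟩
  have hpD : (proj p : Torus d) ∈ (proj '' ellr d α ρ : Set (Torus d)) := by
    have := hp.1
    rwa [hcomp.isClosed.closure_eq] at this
  obtain ⟨y, hy, hyp⟩ := hpD
  obtain ⟨z, hz⟩ := (proj_eq_iff p y).1 hyp.symm
  have hy' : ‖Bmap d α y‖ = ρ := by
    by_contra hne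
    have hlt : ‖Bmap d α y‖ < ρ := lt_of_le_of_ne hy hne
    rw [← hyp] at hp
    exact not_mem_frontier_of_lt' hlt hp
  have hpy : p - lat z = y := by rw [← hz]; abel
  set L : EuclideanSpace ℝ (Fin d) →L[ℝ] EuclideanSpace ℝ (Fin d) :=
    LinearMap.toContinuousLinearMap (Bmap d α) with hL
  have hLB : ∀ x, L x = Bmap d α x := fun x => rfl
  refine ⟨{x | ‖Bmap d α (x - lat z)‖ < 1 + η - ρ}, ?_,
    fun x => ‖L (x - lat z)‖ ^ 2 - ρ ^ 2, ?_, ?_, ?_⟩
  · refine IsOpen.mem_nhds ?_ ?_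
    · refine isOpen_lt ?_ continuous_const
      exact ((continuous_Bmap d α).comp (by fun_prop)).norm
    · change ‖Bmap d α (p - lat z)‖ < 1 + η - ρ
      rw [hpy, hy']
      linarith
  · refine ContDiff.sub (ContDiff.norm_sq ℝ ?_) contDiff_const
    exact L.contDiff.comp (contDiff_id.sub contDiff_const)
  · have h1 : HasFDerivAt (fun x => ‖L (x - lat z)‖ ^ 2 - ρ ^ 2)
        (2 • (innerSL ℝ (L (p - lat z))).comp L) p := by
      have h2 : HasFDerivAt (fun x => L (x - lat z)) L p := by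
        have := L.hasFDerivAt (x := p - lat z)
        exact this.comp p ((hasFDerivAt_id p).sub_const (lat z))
      exact h2.norm_sq.sub_const _
    rw [h1.fderiv, hpy]
    intro h0
    have h2 := congrArg (fun φ : EuclideanSpace ℝ (Fin d) →L[ℝ] ℝ => φ y) h0
    simp only [smul_apply, ContinuousLinearMap.comp_apply,
      zero_apply, innerSL_apply_apply, real_inner_self_eq_norm_sq] at h2
    rw [hLB, hy'] at h2
    have h3 : 0 < ρ ^ 2 := by positivity
    simp only [nsmul_eq_mul] at h2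
    norm_num at h2
    exact hρ.ne' h2
  · intro x hx
    have hx' : ‖Bmap d α (x - lat z)‖ < 1 + η - ρ := hx
    have hiff : ‖L (x - lat z)‖ ^ 2 - ρ ^ 2 ≤ 0 ↔ ‖Bmap d α (x - lat z)‖ ≤ ρ := by
      rw [sub_nonpos, hLB]
      exact pow_le_pow_iff_left₀ (norm_nonneg _) hρ.le two_ne_zero
    rw [hiff]
    constructor
    · rintro ⟨w, hw, hwx⟩
      obtain ⟨z', hz'⟩ := (proj_eq_iff x w).1 hwx.symm
      by_cases h0 : z' = z
      · have : x - lat z = w := by rw [← h0, ← hz']; abel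
        rw [this]
        exact hw
      · exfalso
        have h1 : (x - lat z) - w = lat (z' - z) := by
          have : lat (z' - z) = lat z' - lat z := by
            ext i
            simp [lat_apply]
          rw [this, ← hz']
          abel
        have h2 := far_of_ne' hη hw (sub_ne_zero.2 h0) h1
        linarith
    · intro h
      refine ⟨x - lat z, h, ?_⟩
      rw [proj_sub, proj_lat, sub_zero]

lemma frontier_subset' {α : ℝ} (hd : 0 < d) (hα : α ≠ 0) (ρ : ℝ) :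
    frontier (proj '' ellr d α ρ : Set (Torus d)) ⊆ proj '' (Amap d α '' sphere 0 ρ) := by
  have hcomp : IsCompact (proj '' ellr d α ρ : Set (Torus d)) :=
    (isCompact_ellr hd hα ρ).image continuous_proj
  intro t ht
  have htD : t ∈ (proj '' ellr d α ρ : Set (Torus d)) := by
    have := ht.1
    rwa [hcomp.isClosed.closure_eq] at this
  obtain ⟨y, hy, rfl⟩ := htD
  refine ⟨y, ⟨Bmap d α y, ?_, Amap_Bmap hd hα y⟩, rfl⟩
  rw [mem_sphere_zero_iff_norm]
  by_contra hne
  exact not_mem_frontier_of_lt' (lt_of_le_of_ne hy hne) ht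

/-- The boundary volume of the ellipsoidal domain. -/
lemma bdry_le' (hd : 0 < d) {α : ℝ} (hα : 1 ≤ α) {ρ : ℝ} (hρ : 0 < ρ) :
    μHE[d - 1] (frontier (proj '' ellr d α ρ : Set (Torus d))) ≤
      ENNReal.ofReal (α ^ (d - 1) * (ρ ^ (d - 1) * (d * omega d))) := by
  have hα0 : 0 < α := by linarith
  have hlip : LipschitzWith (Real.toNNReal α) (Amap d α) := by
    refine LipschitzWith.of_dist_le_mul fun x y => ?_
    rw [Real.coe_toNNReal _ hα0.le, dist_eq_norm, dist_eq_norm, ← map_sub]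
    exact norm_Amap_le hd hα _
  calc μHE[d - 1] (frontier (proj '' ellr d α ρ : Set (Torus d)))
      ≤ μHE[d - 1] (proj '' (Amap d α '' sphere 0 ρ) : Set (Torus d)) :=
        measure_mono (frontier_subset' hd hα0.ne' ρ)
    _ ≤ ((1 : ℝ≥0) : ℝ≥0∞) ^ (d - 1) * μHE[d - 1] (Amap d α '' sphere 0 ρ) :=
        muHE_lipschitz_le _ lipschitz_proj _
    _ = μHE[d - 1] (Amap d α '' sphere 0 ρ) := by simp
    _ ≤ ((Real.toNNReal α : ℝ≥0) : ℝ≥0∞) ^ (d - 1) *
          μHE[d - 1] (sphere (0 : EuclideanSpace ℝ (Fin d)) ρ) :=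
        muHE_lipschitz_le _ hlip _
    _ ≤ ((Real.toNNReal α : ℝ≥0) : ℝ≥0∞) ^ (d - 1) * (ENNReal.ofReal (ρ ^ (d - 1)) *
          ((((d - 1 : ℕ) : ℝ≥0∞) + 1) * volume (ball (0 : EuclideanSpace ℝ (Fin d)) 1))) := by
        gcongr
        exact sphere_le' (d - 1) (by rw [finrank_euclideanSpace_fin]; omega) 0 hρ
    _ = ENNReal.ofReal (α ^ (d - 1) * (ρ ^ (d - 1) * (d * omega d))) := by
        have h1 : (((d - 1 : ℕ) : ℝ≥0∞) + 1) = ENNReal.ofReal d := by
          rw [ENNReal.ofReal_natCast]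
          have : d = (d - 1) + 1 := by omega
          conv_rhs => rw [this]
          push_cast
          rfl
        rw [h1, ← ofReal_omega d hd.ne', ← ENNReal.ofReal_mul (by positivity),
          ENNReal.ofReal_mul (p := α ^ (d - 1)) (by positivity),
          ENNReal.ofReal_mul (p := ρ ^ (d - 1)) (by positivity), ENNReal.ofReal_pow hα0.le]
        rfl

/-- The model curves are monotone. -/
lemma phi_mono {k : ℕ} (hkd : k < d) {β β' : ℝ} (h0 : 0 ≤ β) (h : β ≤ β') :
    phi d k β ≤ phi d k β' := by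
  have hω : 0 < omega (d - k) := omega_pos _ (by omega)
  unfold phi
  have h1 : β / omega (d - k) ≤ β' / omega (d - k) := by gcongr
  have h2 : (β / omega (d - k)) ^ (1 / ((d - k : ℕ) : ℝ)) ≤
      (β' / omega (d - k)) ^ (1 / ((d - k : ℕ) : ℝ)) :=
    Real.rpow_le_rpow (by positivity) h1 (by positivity)
  have h3 : 0 ≤ (β / omega (d - k)) ^ (1 / ((d - k : ℕ) : ℝ)) := by positivity
  gcongr

lemma phi_nonneg {k : ℕ} (hkd : k < d) {β : ℝ} (h0 : 0 ≤ β) : 0 ≤ phi d k β := by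
  have hω : 0 < omega (d - k) := omega_pos _ (by omega)
  unfold phi
  positivity

/-- **Main theorem.** Let `d ≥ 10`. There are `β₂` with `ω_d / 2 ^ d < β₂ ≤ 1 / 2` and `c < 1` such
that for EVERY volume `β` with `ω_d / 2 ^ d ≤ β ≤ β₂` there is a connected domain of `T^d` of volume
`β` whose boundary volume is at most `c` times every applicable `φ_k(β)`; hence the profile
satisfies `h(β) ≤ c φ_k(β)` for all applicable `k`, and `h(β) < min_k φ_k(β)`, on this whole
interval of volumes. -/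
theorem result (d : ℕ) (hd : 10 ≤ d) :
    ∃ β₂ c : ℝ, omega d / 2 ^ d < β₂ ∧ β₂ ≤ 1 / 2 ∧ 0 < c ∧ c < 1 ∧
      ∀ β : ℝ, omega d / 2 ^ d ≤ β → β ≤ β₂ →
        (∃ D : Set (Torus d), IsTorusDomain D ∧ IsConnected D ∧ μHE[d] D = ENNReal.ofReal β ∧
          ∀ k < d, Applicable d k β →
            μHE[d - 1] (frontier D) ≤ ENNReal.ofReal (c * phi d k β)) ∧
        (∀ k < d, Applicable d k β → profile d β ≤ ENNReal.ofReal (c * phi d k β)) ∧
        profile d β < ⨅ (k : ℕ) (_ : k < d) (_ : Applicable d k β), ENNReal.ofReal (phi d k β) := by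
  have hd0 : 0 < d := by omega
  have hωd : 0 < omega d := omega_pos d (by omega)
  set β₀ : ℝ := omega d / 2 ^ d with hβ₀
  have hβ₀pos : 0 < β₀ := by positivity
  have hev1 : ∀ᶠ α in 𝓝 (1 : ℝ), ∀ k ∈ Finset.Ico 1 d,
      α ^ (d - 1) * ((1 / 2) ^ (d - 1) * (d * omega d)) < phi d k β₀ := by
    rw [Filter.eventually_all_finset]
    intro k hk
    rw [Finset.mem_Ico] at hk
    have h1 : Tendsto (fun α : ℝ => α ^ (d - 1) * ((1 / 2) ^ (d - 1) * (d * omega d))) (𝓝 1)
        (𝓝 (1 ^ (d - 1) * ((1 / 2) ^ (d - 1) * (d * omega d)))) :=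
      (Continuous.tendsto (by fun_prop) 1)
    refine h1.eventually_lt_const ?_
    rw [one_pow, one_mul]
    exact lt_phi hd hk.1 hk.2
  have hev2 : ∀ᶠ α in 𝓝 (1 : ℝ), α ^ 2 < 2 := by
    have h1 : Tendsto (fun α : ℝ => α ^ 2) (𝓝 1) (𝓝 (1 ^ 2)) :=
      (Continuous.tendsto (by fun_prop) 1)
    exact h1.eventually_lt_const (by norm_num)
  obtain ⟨α, ⟨hα1, hα2⟩, hα⟩ := (((hev1.and hev2).filter_mono nhdsWithin_le_nhds).and
    (self_mem_nhdsWithin (s := Ioi (1 : ℝ)))).exists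
  have hα : 1 < α := hα
  obtain ⟨η, hη0, hη⟩ := exists_gap (d := d) hα hα2 (by omega)
  have hαne : α ≠ 0 := by linarith
  have hβhalf : β₀ < 1 / 2 := by
    have h1 := aseq_lt d 1 hd le_rfl (by omega)
    rw [aseq_self d hd0, aseq, omega_one] at h1
    have hdR : (10 : ℝ) ≤ d := by exact_mod_cast hd
    have h2 : 2 * (((1 : ℕ) : ℝ) / (2 * d)) ^ 1 ≤ 1 / 2 := by
      rw [pow_one, Nat.cast_one, mul_one_div, div_le_div_iff₀ (by positivity) (by positivity)]
      linarith
    linarith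
  -- the parameter `t`: the radius goes up to `1 / 2 + t`, the factor is `1 - t`
  have hev3 : ∀ᶠ t in 𝓝 (0 : ℝ), ∀ k ∈ Finset.Ico 1 d,
      α ^ (d - 1) * ((1 / 2 + t) ^ (d - 1) * (d * omega d)) - (1 - t) * phi d k β₀ < 0 := by
    rw [Filter.eventually_all_finset]
    intro k hk
    have h1 : Tendsto (fun t : ℝ => α ^ (d - 1) * ((1 / 2 + t) ^ (d - 1) * (d * omega d)) -
        (1 - t) * phi d k β₀) (𝓝 0)
        (𝓝 (α ^ (d - 1) * ((1 / 2 + 0) ^ (d - 1) * (d * omega d)) - (1 - 0) * phi d k β₀)) :=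
      (Continuous.tendsto (by fun_prop) 0)
    refine h1.eventually_lt_const ?_
    have h2 := hα1 k hk
    rw [add_zero, sub_zero, one_mul]
    linarith
  have hev4 : ∀ᶠ t in 𝓝 (0 : ℝ), (1 / 2 + t) ^ d * omega d < 1 / 2 := by
    have h1 : Tendsto (fun t : ℝ => (1 / 2 + t) ^ d * omega d) (𝓝 0)
        (𝓝 ((1 / 2 + 0) ^ d * omega d)) := (Continuous.tendsto (by fun_prop) 0)
    refine h1.eventually_lt_const ?_
    rw [add_zero, one_div, inv_pow, inv_mul_eq_div]
    rw [one_div] at hβhalf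
    exact hβhalf
  have hev5 : ∀ᶠ t in 𝓝 (0 : ℝ), t < min (η / 2) 1 :=
    eventually_lt_nhds (lt_min (by linarith) one_pos)
  obtain ⟨t, ⟨ht3, ht4, ht5⟩, ht⟩ :=
    (((hev3.and (hev4.and hev5)).filter_mono nhdsWithin_le_nhds).and
      (self_mem_nhdsWithin (s := Ioi (0 : ℝ)))).exists
  have ht0 : 0 < t := ht
  have htη : t < η / 2 := ht5.trans_le (min_le_left _ _)
  have ht1 : t < 1 := ht5.trans_le (min_le_right _ _)
  have hβ₀' : β₀ = (1 / 2) ^ d * omega d := by
    rw [hβ₀, one_div, inv_pow, inv_mul_eq_div]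
  refine ⟨(1 / 2 + t) ^ d * omega d, 1 - t, ?_, ht4.le, by linarith, by linarith, ?_⟩
  · rw [hβ₀']
    have h1 : (1 / 2 : ℝ) ^ d < (1 / 2 + t) ^ d := pow_lt_pow_left₀ (by linarith) (by norm_num) hd0.ne'
    exact mul_lt_mul_of_pos_right h1 hωd
  intro β hβ1 hβ2
  have hβ : 0 < β := hβ₀pos.trans_le hβ1
  have hdR : (0 : ℝ) < d := by exact_mod_cast hd0
  obtain ⟨ρ, hρ⟩ : ∃ ρ : ℝ, ρ = (β / omega d) ^ (1 / (d : ℝ)) := ⟨_, rfl⟩
  have hρ0 : 0 < ρ := by rw [hρ]; positivity
  have hρd : ρ ^ d = β / omega d := by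
    rw [hρ, ← Real.rpow_natCast, ← Real.rpow_mul (by positivity), one_div,
      inv_mul_cancel₀ hdR.ne', Real.rpow_one]
  have hρβ : ρ ^ d * omega d = β := by
    rw [hρd]
    field_simp
  have hρ2 : ρ ≤ 1 / 2 + t := by
    refine (pow_le_pow_iff_left₀ hρ0.le (by linarith) hd0.ne').1 ?_
    rw [hρd, div_le_iff₀ hωd]
    exact hβ2
  have hgap : 2 * ρ < 1 + η := by linarith
  have hdom : IsTorusDomain (proj '' ellr d α ρ : Set (Torus d)) :=
    isTorusDomain_ellr hd0 hαne hρ0 hgap hη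
  have hconn : IsConnected (proj '' ellr d α ρ : Set (Torus d)) :=
    (isConnected_ellr hd0 hαne hρ0).image _ continuous_proj.continuousOn
  have hvol : μHE[d] (proj '' ellr d α ρ : Set (Torus d)) = ENNReal.ofReal β := by
    rw [muHE_proj_of_injOn (isCompact_ellr hd0 hαne ρ).isClosed.measurableSet
      (injOn_ellr hgap hη), volume_ellr hd0 (by linarith) hρ0, hρβ]
  have hk0 : ∀ k, Applicable d k β → 1 ≤ k := by
    intro k hk
    rcases Nat.eq_zero_or_pos k with h0 | h0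
    · subst h0
      exact absurd (lt_of_lt_of_le hk hβ1) (lt_irrefl _)
    · exact h0
  have hbd0 : ∀ k < d, Applicable d k β →
      α ^ (d - 1) * (ρ ^ (d - 1) * (d * omega d)) < (1 - t) * phi d k β := by
    intro k hkd hk
    have h1 := ht3 k (Finset.mem_Ico.2 ⟨hk0 k hk, hkd⟩)
    have h2 : phi d k β₀ ≤ phi d k β := phi_mono hkd hβ₀pos.le hβ1
    have h3 : α ^ (d - 1) * (ρ ^ (d - 1) * (d * omega d)) ≤
        α ^ (d - 1) * ((1 / 2 + t) ^ (d - 1) * (d * omega d)) := by gcongr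
    have h4 : (1 - t) * phi d k β₀ ≤ (1 - t) * phi d k β :=
      mul_le_mul_of_nonneg_left h2 (by linarith)
    linarith
  have hfr := bdry_le' (d := d) hd0 hα.le hρ0
  have hbd : ∀ k < d, Applicable d k β →
      μHE[d - 1] (frontier (proj '' ellr d α ρ : Set (Torus d))) ≤
        ENNReal.ofReal ((1 - t) * phi d k β) := fun k hkd hk =>
    hfr.trans (ENNReal.ofReal_le_ofReal (hbd0 k hkd hk).le)
  have hprof : profile d β ≤ μHE[d - 1] (frontier (proj '' ellr d α ρ : Set (Torus d))) :=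
    iInf_le_of_le _ (iInf_le_of_le hdom (iInf_le_of_le hvol le_rfl))
  refine ⟨⟨_, hdom, hconn, hvol, hbd⟩, fun k hkd hk => hprof.trans (hbd k hkd hk), ?_⟩
  refine hprof.trans_lt ?_
  classical
  set F : ℕ → ℝ≥0∞ := fun k => if Applicable d k β then
    ENNReal.ofReal (phi d k β) else ⊤ with hF
  have htop : μHE[d - 1] (frontier (proj '' ellr d α ρ : Set (Torus d))) < ⊤ :=
    hfr.trans_lt ENNReal.ofReal_lt_top
  have h1 : μHE[d - 1] (frontier (proj '' ellr d α ρ : Set (Torus d))) <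
      (Finset.range d).inf F := by
    rw [Finset.lt_inf_iff htop]
    intro k hk
    rw [Finset.mem_range] at hk
    by_cases hA : Applicable d k β
    · simp only [hF, if_pos hA]
      refine hfr.trans_lt ?_
      rw [ENNReal.ofReal_lt_ofReal_iff_of_nonneg (by positivity)]
      have h5 := hbd0 k hk hA
      have h6 := phi_nonneg (d := d) hk hβ.le
      nlinarith
    · simp only [hF, if_neg hA]
      exact htop
  refine h1.trans_le ?_
  refine le_iInf fun k => le_iInf fun hk => le_iInf fun hA => ?_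
  have h2 := Finset.inf_le (f := F) (Finset.mem_range.2 hk)
  simpa only [hF, if_pos hA] using h2

end

end Pool.Agent.Results.MP_cbfbdc_gt.IntervalOfVolumes
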